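import Pool.Agent.Helper89.KS.Goals

set_option autoImplicit false

namespace Pool.Agent.Helper48.KS

open Finset Pool.Agent.Helper89.GP Pool.Agent.Helper89.KS

theorem cnx : CnxStmt := by
  classical
  intro n R S hne hS hdv s
  set T : Finset (Fin n) := univ.filter fun p => s ≤ hh R p ∧ hh R p < s + S with hT
  have hcard : (Fintype.card {p : Fin n // s ≤ hh R p ∧ hh R p < s + S} : ℝ) = (T.card : ℝ) := by
    rw [Fintype.card_subtype]
  have hLX : 0 < ((LX R).card : ℝ) := by exact_mod_cast Finset.card_pos.2 hne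
  have h1 : ∀ σ : Equiv.Perm (Fin n),
      ∑ p ∈ T, (if |(po σ p : ℝ) - hh R p| ≤ 4 * S then (1 : ℝ) else 0) ≤ 10 * S := by
    intro σ
    rw [Finset.sum_boole]
    have h2 : (T.filter fun p => |(po σ p : ℝ) - hh R p| ≤ 4 * S).card ≤
        (Finset.Icc ⌈s - 4 * S⌉ ⌊s + 5 * S⌋).card := by
      refine Finset.card_le_card_of_injOn (fun p => (po σ p : ℤ)) ?_ ?_
      · intro p hp
        obtain ⟨hpT, hp2⟩ := Finset.mem_filter.1 (Finset.mem_coe.1 hp)
        obtain ⟨hp3, hp4⟩ := (Finset.mem_filter.1 hpT).2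
        obtain ⟨h3, h4⟩ := abs_le.1 hp2
        refine Finset.mem_coe.2 (Finset.mem_Icc.2 ⟨Int.ceil_le.2 ?_, Int.le_floor.2 ?_⟩)
        · push_cast; linarith
        · push_cast; linarith
      · intro p _ q _ hpq
        have h3 : po σ p = po σ q := Nat.cast_injective (R := ℤ) hpq
        exact σ.injective (Fin.ext h3)
    have h3 : ((Finset.Icc ⌈s - 4 * S⌉ ⌊s + 5 * S⌋).card : ℝ) ≤ 10 * S := by
      rw [Int.card_Icc]
      have h4 : ((⌊s + 5 * S⌋ + 1 - ⌈s - 4 * S⌉ : ℤ) : ℝ) ≤ 10 * S := by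
        push_cast
        have h5 := Int.floor_le (s + 5 * S)
        have h6 := Int.le_ceil (s - 4 * S)
        linarith
      rcases le_or_gt 0 (⌊s + 5 * S⌋ + 1 - ⌈s - 4 * S⌉) with h | h
      · have h7 : (((⌊s + 5 * S⌋ + 1 - ⌈s - 4 * S⌉).toNat : ℤ) : ℝ) ≤ 10 * S := by
          rw [Int.toNat_of_nonneg h]; exact h4
        exact_mod_cast h7
      · rw [Int.toNat_of_nonpos h.le]
        push_cast
        linarith
    refine le_trans ?_ h3
    exact_mod_cast h2
  have h2 : ∀ p, 3 / 4 * ((LX R).card : ℝ) ≤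
      ∑ σ ∈ LX R, (if |(po σ p : ℝ) - hh R p| ≤ 4 * S then (1 : ℝ) else 0) := by
    intro p
    have h3 : ∑ σ ∈ LX R, |(po σ p : ℝ) - hh R p| ≤ S * (LX R).card := by
      have h4 := hdv p
      rw [dv, Ex, div_le_iff₀ hLX] at h4
      exact h4
    have h4 : ∑ σ ∈ LX R, ((1 : ℝ) - |(po σ p : ℝ) - hh R p| / (4 * S)) ≤
        ∑ σ ∈ LX R, (if |(po σ p : ℝ) - hh R p| ≤ 4 * S then (1 : ℝ) else 0) := by
      refine Finset.sum_le_sum fun σ _ => ?_
      have h5 := abs_nonneg ((po σ p : ℝ) - hh R p)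
      split_ifs with h
      · have : 0 ≤ |(po σ p : ℝ) - hh R p| / (4 * S) := by positivity
        linarith
      · push Not at h
        have : 1 < |(po σ p : ℝ) - hh R p| / (4 * S) := by
          rw [lt_div_iff₀ (by positivity)]; linarith
        linarith
    refine le_trans ?_ h4
    rw [Finset.sum_sub_distrib, ← Finset.sum_div, Finset.sum_const, nsmul_eq_mul, mul_one]
    have h5 : (∑ σ ∈ LX R, |(po σ p : ℝ) - hh R p|) / (4 * S) ≤ (LX R).card / 4 := by
      rw [div_le_div_iff₀ (by positivity) (by norm_num)]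
      nlinarith
    linarith
  have h3 : (T.card : ℝ) * (3 / 4 * (LX R).card) ≤ (LX R).card * (10 * S) := by
    calc (T.card : ℝ) * (3 / 4 * (LX R).card) = ∑ p ∈ T, (3 / 4 * ((LX R).card : ℝ)) := by
          rw [Finset.sum_const, nsmul_eq_mul]
      _ ≤ ∑ p ∈ T, ∑ σ ∈ LX R, (if |(po σ p : ℝ) - hh R p| ≤ 4 * S then (1 : ℝ) else 0) :=
          Finset.sum_le_sum fun p _ => h2 p
      _ = ∑ σ ∈ LX R, ∑ p ∈ T, (if |(po σ p : ℝ) - hh R p| ≤ 4 * S then (1 : ℝ) else 0) :=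
          Finset.sum_comm
      _ ≤ ∑ σ ∈ LX R, (10 * S) := Finset.sum_le_sum fun σ _ => h1 σ
      _ = (LX R).card * (10 * S) := by rw [Finset.sum_const, nsmul_eq_mul]
  rw [hcard]
  have h4 : (LX R).card * ((T.card : ℝ) * (3 / 4)) ≤ (LX R).card * (10 * S) := by linarith
  have h5 := le_of_mul_le_mul_left h4 hLX
  linarith

end Pool.Agent.Helper48.KS
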